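import Pool.Agent.Q182.MZ.LFb
import Pool.Agent.Q125.AR.Arc

/-! Project MZ, job MZ-LF: **the norm theorem of Hasse for quadratic extensions, one prime omitted**. -/

set_option autoImplicit false
set_option linter.unusedSectionVars false

namespace Pool.Agent.Q182.MZ

open NumberField IsDedekindDomain Module
open Pool.Agent.Q92.AR (Dv prin Pr Ray RayD art nmD nu up puD Cong Pos frob IsFrobenius Unramified Ram
  SupF prin_mul prin_div prin_one prin_inv mem_Pr val_eq_one nmD_single art_single frob_spec)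
open Pool.Agent.Q20.EX (CongAt)
open Pool.Agent.Q5.MZ (LocN NonSplit PosRam VAData)
open Pool.Agent.Q38.EX (near_one near_mul near_inv near_div near_prod exists_exp_le val_nat_lt_one
  val_nat_ne_zero approx nu_eq val_nat norm_cong exists_above)
open Pool.Agent.Q125.AR (mem_under prin_eq_zero_of_valuation prin_mem_Pr Ray_mono Ram_mono)
open Pool.Agent.Q5.BR (rdeg)

theorem prin_prod {K ι : Type} [Field K] [NumberField K] (s : Finset ι) (z : ι → Kˣ) :
    prin (∏ i ∈ s, z i) = ∑ i ∈ s, prin (z i) := by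
  classical
  induction s using Finset.induction_on with
  | empty => rw [Finset.prod_empty, Finset.sum_empty, prin_one]
  | insert i s hi ih => rw [Finset.prod_insert hi, Finset.sum_insert hi, prin_mul, ih]

section
variable {k E : Type} [Field k] [NumberField k] [Field E] [NumberField E] [Algebra k E] [IsGalois k E]

/-- **The product formula.** -/
theorem prodForm (ψ : (E ≃ₐ[k] E) →* ℂˣ) {N : ℕ} (hN : N ≠ 0) (hR : Ram k E N)
    (hker : ∀ x ∈ Ray k N, art ψ (prin x) = 0) (P : Finset (HeightOneSpectrum (𝓞 k)))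
    (hP : ∀ v, v ∈ P ↔ (N : 𝓞 k) ∈ v.asIdeal) {x : kˣ} (hx : PosRam E x)
    (z : HeightOneSpectrum (𝓞 k) → kˣ) (hz1 : ∀ v, Pos (z v : k))
    (hz2 : ∀ v, CongAt {v}ᶜ N (z v : k))
    (hz3 : ∀ v ∈ P, v.valuation k ((x : k) / (z v : k) - 1) ≤ v.valuation k (N : k)) :
    art ψ (prin x - ∑ v ∈ P, Finsupp.single v (prin x v)) =
      ∑ v ∈ P, art ψ (prin (z v) - Finsupp.single v (prin (z v) v)) := by
  classical
  have hval : ((∏ v ∈ P, z v : kˣ) : k) = ∏ v ∈ P, (z v : k) := Units.coe_prod _ _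
  have hu1 : Cong N ((x / ∏ v ∈ P, z v : kˣ) : k) := by
    intro v hv
    have hvP := (hP v).2 hv
    have h1 : v.valuation k ((∏ v' ∈ P.erase v, (z v' : k)) - 1) ≤ v.valuation k (N : k) := by
      refine near_prod _ _ _ (val_nat_lt_one hv) fun v' hv' => hz2 v' v ?_ hv
      intro h
      exact (Finset.ne_of_mem_erase hv') (Set.mem_singleton_iff.1 h).symm
    have h2 := near_div _ (val_nat_lt_one hv) (hz3 v hvP) h1
    have h3 : (x : k) / (z v : k) / (∏ v' ∈ P.erase v, (z v' : k)) =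
        ((x / ∏ v ∈ P, z v : kˣ) : k) := by
      rw [Units.val_div_eq_div_val, hval, ← Finset.mul_prod_erase P _ hvP, div_div]
    rwa [h3] at h2
  have hu2 : PosRam E (x / ∏ v ∈ P, z v) := by
    intro φ hφ
    rw [Units.val_div_eq_div_val, map_div₀, hval, map_prod]
    exact div_pos (hx φ hφ) (Finset.prod_pos fun v _ => hz1 v φ)
  obtain ⟨t, ht1, ht2⟩ := fixReal hN hu2
  have hray : (x / ∏ v ∈ P, z v) * nu k E t ∈ Ray k N := by
    refine ⟨fun v hv => ?_, ht2⟩
    rw [Units.val_mul]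
    exact near_mul _ (val_nat_lt_one hv) (hu1 v hv)
      ((Pool.Agent.Q106.AR.nm k E).2.1 N t hN ht1 v hv)
  have h1 := hker _ hray
  have h2 : art ψ (prin (nu k E t)) = 0 := by
    rw [← nm_prin]
    refine ((Pool.Agent.Q92.AR.all_NKer k E ψ N hN).1 hR) _ fun w hw => ?_
    exact prin_eq_zero_of_valuation (near_one _ (val_nat_lt_one hw) (ht1 w hw))
  rw [prin_mul, map_add, h2, add_zero, prin_div, map_sub, prin_prod, map_sum] at h1
  have h3 := sub_eq_zero.1 h1
  rw [map_sub, map_sum, h3, ← Finset.sum_sub_distrib]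
  refine Finset.sum_congr rfl fun v hv => ?_
  rw [map_sub, prin_eq_of_near ((hP v).1 hv) (hz3 v hv)]

/-- the two conclusions of the product formula -/
theorem locAll (ψ : (E ≃ₐ[k] E) →* ℂˣ) (hψ : Function.Injective ψ) {N1 N : ℕ} (hN1 : N1 ≠ 0)
    (hN : N ≠ 0) (hR1 : Ram k E N1) (hR : Ram k E N)
    (hker : ∀ x ∈ Ray k N, art ψ (prin x) = 0) (P : Finset (HeightOneSpectrum (𝓞 k)))
    (hP : ∀ v, v ∈ P ↔ (N : 𝓞 k) ∈ v.asIdeal) (hP1 : ∀ v, v ∈ P ↔ (N1 : 𝓞 k) ∈ v.asIdeal)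
    {x : kˣ} (hx : PosRam E x) (w : HeightOneSpectrum (𝓞 k))
    (hloc : ∀ v : HeightOneSpectrum (𝓞 k), v ≠ w → LocN E v x)
    (z : HeightOneSpectrum (𝓞 k) → kˣ) (hz1 : ∀ v, Pos (z v : k))
    (hz2 : ∀ v, CongAt {v}ᶜ N (z v : k))
    (hz3 : ∀ v ∈ P, v.valuation k ((x : k) / (z v : k) - 1) ≤ v.valuation k (N : k)) :
    (∀ v ∈ P, art ψ (prin (z v) - Finsupp.single v (prin (z v) v)) = 0) ∧
    ∀ v : HeightOneSpectrum (𝓞 k), v ∉ P →
      ∃ D ∈ Pr E N1, nmD k E D = Finsupp.single v (prin x v) := by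
  classical
  have hpf := prodForm ψ hN hR hker P hP hx z hz1 hz2 hz3
  have ha : ∀ v ∈ P, v ≠ w → art ψ (prin (z v) - Finsupp.single v (prin (z v) v)) = 0 :=
    fun v hv hvw => artLoc ψ hN hR hker ((hP v).1 hv) (hloc v hvw) (hz1 v) (hz2 v) (hz3 v hv)
  have hD : ∀ v : HeightOneSpectrum (𝓞 k), v ∉ P → v ≠ w →
      ∃ D ∈ Pr E N1, nmD k E D = Finsupp.single v (prin x v) :=
    fun v hv hvw => locD (fun h => hv ((hP1 v).2 h)) (hloc v hvw)
  have hxo : ∀ v, (prin x - ∑ v ∈ P, Finsupp.single v (prin x v)) v =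
      if v ∈ P then 0 else prin x v := by
    intro v
    rw [Finsupp.sub_apply, Finsupp.finsetSum_apply]
    by_cases hv : v ∈ P
    · rw [if_pos hv, Finset.sum_eq_single v
        (fun v' _ h => Finsupp.single_eq_of_ne (fun h1 => h h1.symm))
        (fun h => absurd hv h), Finsupp.single_eq_same, sub_self]
    · rw [if_neg hv, Finset.sum_eq_zero (fun v' hv' => Finsupp.single_eq_of_ne
        (fun h1 => hv (by rw [h1]; exact hv'))), sub_zero]
  by_cases hw : w ∈ P
  · have hb : ∀ v : HeightOneSpectrum (𝓞 k), v ∉ P →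
        ∃ D ∈ Pr E N1, nmD k E D = Finsupp.single v (prin x v) := fun v hv =>
      hD v hv (fun h => hv (by rw [h]; exact hw))
    refine ⟨?_, hb⟩
    obtain ⟨D, hD1, hD2⟩ := glueD (E := E) (N := N1)
      (prin x - ∑ v ∈ P, Finsupp.single v (prin x v)) (fun v => by
        rw [hxo v]
        by_cases hv : v ∈ P
        · rw [if_pos hv, Finsupp.single_zero]
          exact ⟨0, AddSubgroup.zero_mem _, map_zero _⟩
        · rw [if_neg hv]
          exact hb v hv)
    have h1 : art ψ (prin x - ∑ v ∈ P, Finsupp.single v (prin x v)) = 0 := by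
      rw [← hD2]
      exact (Pool.Agent.Q92.AR.all_NKer k E ψ N1 hN1).1 hR1 D hD1
    rw [hpf, Finset.sum_eq_single w (fun v hv hvw => ha v hv hvw) (fun h => absurd hw h)] at h1
    intro v hv
    by_cases hvw : v = w
    · rw [hvw]
      exact h1
    · exact ha v hv hvw
  · have haa : ∀ v ∈ P, art ψ (prin (z v) - Finsupp.single v (prin (z v) v)) = 0 :=
      fun v hv => ha v hv (fun h => hw (by rw [← h]; exact hv))
    refine ⟨haa, fun v hv => ?_⟩
    by_cases hvw : v = w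
    · subst hvw
      rw [Finset.sum_eq_zero haa] at hpf
      obtain ⟨D, hD1, hD2⟩ := glueD (E := E) (N := N1)
        (prin x - ∑ v ∈ P, Finsupp.single v (prin x v) - Finsupp.single v (prin x v))
        (fun v' => by
          rw [Finsupp.sub_apply, hxo v']
          by_cases hv' : v' = v
          · rw [hv', if_neg hv, Finsupp.single_eq_same, sub_self, Finsupp.single_zero]
            exact ⟨0, AddSubgroup.zero_mem _, map_zero _⟩
          · rw [Finsupp.single_eq_of_ne hv', sub_zero]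
            by_cases hvP : v' ∈ P
            · rw [if_pos hvP, Finsupp.single_zero]
              exact ⟨0, AddSubgroup.zero_mem _, map_zero _⟩
            · rw [if_neg hvP]
              exact hD v' hvP hv')
      have h1 : art ψ (prin x - ∑ v ∈ P, Finsupp.single v (prin x v) -
          Finsupp.single v (prin x v)) = 0 := by
        rw [← hD2]
        exact (Pool.Agent.Q92.AR.all_NKer k E ψ N1 hN1).1 hR1 D hD1
      rw [map_sub, hpf, zero_sub, neg_eq_zero] at h1
      have hv1 : (N1 : 𝓞 k) ∉ v.asIdeal := fun h => hv ((hP1 v).2 h)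
      exact unrD ψ hψ hv1 (by
        by_contra h2
        exact hv1 (hR1 v h2)) h1
    · exact hD v hv hvw

end

/-- **JOB MZ-LF** -/
theorem lf : Pool.Agent.Q5.MZ.J_LF := by
  intro hLA hLD k E _ _ _ _ _ _ w x h2 hloc hpos
  classical
  have hcard : Nat.card (E ≃ₐ[k] E) = 2 := by
    rw [IsGalois.card_aut_eq_finrank, h2]
  have : Fact (Nat.Prime 2) := ⟨Nat.prime_two⟩
  have hcyc : IsCyclic (E ≃ₐ[k] E) := isCyclic_of_prime_card hcard
  obtain ⟨σ, hσ⟩ := hcyc.exists_generator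
  obtain ⟨ψ, hψ⟩ := Pool.Agent.Q125.AR.exists_char σ hσ
  obtain ⟨N0, hN0, hR0, hker0⟩ := Pool.Agent.Q92.AR.recip k E ψ
  obtain ⟨N1, N2, hN1, hN2, h01, h12, hpow, A, hA1, hA2, hA3, hA4⟩ :=
    Pool.Agent.Q149.AR.va k E σ hσ N0 hN0
  have hR1 : Ram k E N1 := Ram_mono h01 hR0
  have hR2 : Ram k E N2 := Ram_mono h12 hR1
  have hVA : VAData k E σ N1 N2 A := ⟨hσ, hN1, hN2, hR1, h12, hpow, hA1, hA2, hA3, hA4⟩
  have hker1 : ∀ x ∈ Ray k N1, art ψ (prin x) = 0 := fun x hx => hker0 x (Ray_mono h01 hx)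
  have hker2 : ∀ x ∈ Ray k N2, art ψ (prin x) = 0 := fun x hx => hker1 x (Ray_mono h12 hx)
  have hmem : ∀ v : HeightOneSpectrum (𝓞 k), (N1 : 𝓞 k) ∈ v.asIdeal ↔ (N2 : 𝓞 k) ∈ v.asIdeal := by
    intro v
    constructor
    · intro h
      obtain ⟨c, rfl⟩ := h12
      rw [Nat.cast_mul]
      exact Ideal.mul_mem_right _ _ h
    · intro h
      obtain ⟨j, c, hc⟩ := hpow
      have h3 : ((N1 : 𝓞 k)) ^ j ∈ v.asIdeal := by
        have h4 : ((N1 : 𝓞 k)) ^ j = (N2 : 𝓞 k) * (c : 𝓞 k) := by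
          rw [← Nat.cast_pow, hc, Nat.cast_mul]
        rw [h4]
        exact Ideal.mul_mem_right _ _ h
      exact v.isPrime.mem_of_pow_mem j h3
  have hfin := Pool.Agent.Q125.AR.finite_dvd (F := k) hN1
  obtain ⟨P, hP1⟩ : ∃ P : Finset (HeightOneSpectrum (𝓞 k)), ∀ v, v ∈ P ↔ (N1 : 𝓞 k) ∈ v.asIdeal :=
    ⟨hfin.toFinset, fun v => by
      rw [Set.Finite.mem_toFinset]
      rfl⟩
  have hP2 : ∀ v, v ∈ P ↔ (N2 : 𝓞 k) ∈ v.asIdeal := fun v => (hP1 v).trans (hmem v)
  choose z hz1 hz2 hz3 using fun v : HeightOneSpectrum (𝓞 k) => apxAt hN2 v x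
  obtain ⟨ha, hb⟩ := locAll ψ hψ hN1 hN2 hR1 hR2 hker2 P hP2 hP1 hpos w hloc z hz1 hz2
    (fun v hv => hz3 v ((hP2 v).1 hv))
  have hmemsup := hLD k E σ N1 N2 A ψ h2 hVA hψ hker1 x (fun v hv _ =>
    ⟨z v, hz1 v, hz2 v, hz3 v ((hmem v).1 hv), ha v ((hP1 v).2 hv)⟩)
  obtain ⟨y0', hy0, a, haA, hxa⟩ := Subgroup.mem_sup.1 hmemsup
  obtain ⟨y0, rfl⟩ := MonoidHom.mem_range.1 hy0
  have haA' : up k E a ∈ A := Subgroup.mem_comap.1 haA
  have hxa' : a = x / nu k E y0 := by
    rw [← hxa, mul_div_cancel_left]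
  have hposa : PosRam E a := by
    intro φ hφ
    rw [hxa', Units.val_div_eq_div_val, map_div₀]
    exact div_pos (hpos φ hφ) ((Pool.Agent.Q106.AR.nm k E).2.2.2.2.1 φ y0 hφ)
  have hDa : ∃ D ∈ Pr E N1, nmD k E D = prin a := by
    refine glueD _ fun v => ?_
    by_cases hv : v ∈ P
    · have h3 : prin a v = 0 := by
        obtain ⟨W, hW⟩ := exists_above (M := E) v
        have hNW : (N1 : 𝓞 E) ∈ W.asIdeal := by
          rw [← mem_under (F := k), hW]
          exact (hP1 v).1 hv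
        have h4 := hA2 _ haA' W hNW
        have h5 : ((up k E a : Eˣ) : E) = algebraMap k E (a : k) := rfl
        rw [h5, val_nat, hW] at h4
        exact prin_eq_zero_of_valuation (near_one _ (val_nat_lt_one ((hP1 v).1 hv)) h4)
      rw [h3, Finsupp.single_zero]
      exact ⟨0, AddSubgroup.zero_mem _, map_zero _⟩
    · obtain ⟨D, hD1, hD2⟩ := hb v hv
      refine ⟨D - pa v (prin y0), AddSubgroup.sub_mem _ hD1 ?_, ?_⟩
      · intro W hW
        refine pa_neg _ fun h1 => hv ((hP1 v).2 ?_)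
        rw [← h1]
        exact mem_under.2 hW
      · rw [map_sub, hD2, nmD_pa, nm_prin, hxa', prin_div, Finsupp.sub_apply, Finsupp.single_sub]
  obtain ⟨y1, -, hy1⟩ := hLA k E σ N1 N2 A hVA a haA' hposa hDa
  refine ⟨y0 * y1, ?_⟩
  rw [map_mul, hy1, hxa]

end Pool.Agent.Q182.MZ
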