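import Pool.Agent.Q5.MZ.Stm
import Pool.Agent.Q38.EX.NrmA
import Pool.Agent.Q125.AR.Final

/-! Project MZ, job MZ-LF, first part: approximation, parts of divisors. -/

set_option autoImplicit false
set_option linter.unusedSectionVars false

namespace Pool.Agent.Q182.MZ

open NumberField IsDedekindDomain Module
open Pool.Agent.Q92.AR (Dv prin Pr Ray RayD art nmD nu up puD Cong Pos frob IsFrobenius Unramified Ram
  SupF prin_mul prin_div prin_one prin_inv mem_Pr val_eq_one nmD_single art_single frob_spec)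
open Pool.Agent.Q20.EX (CongAt)
open Pool.Agent.Q5.MZ (LocN NonSplit PosRam)
open Pool.Agent.Q38.EX (near_one near_mul near_inv near_div near_prod exists_exp_le val_nat_lt_one
  val_nat_ne_zero approx nu_eq val_nat norm_cong exists_above)
open Pool.Agent.Q125.AR (mem_under prin_eq_zero_of_valuation prin_mem_Pr Ray_mono Ram_mono)
open Pool.Agent.Q5.BR (rdeg)

section one
variable {K : Type} [Field K] [NumberField K]

/-- approximation by totally positive elements -/
theorem apx {N : ℕ} (hN : N ≠ 0) (y : HeightOneSpectrum (𝓞 K) → Kˣ) :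
    ∃ z : Kˣ, Pos (z : K) ∧ ∀ w : HeightOneSpectrum (𝓞 K), (N : 𝓞 K) ∈ w.asIdeal →
      w.valuation K ((z : K) / (y w : K) - 1) ≤ w.valuation K (N : K) := by
  obtain ⟨z, hz⟩ := approx hN y
  obtain ⟨c, hc1, hc2⟩ := Pool.Agent.Q84.AR.sgn K N hN (fun φ => 0 < φ (z : K))
  refine ⟨z * c, ?_, ?_⟩
  · intro φ
    rw [Units.val_mul, map_mul]
    by_cases h1 : 0 < φ (z : K)
    · exact mul_pos h1 ((hc2 φ).2 h1)
    · have h2 : φ (z : K) < 0 := lt_of_le_of_ne (not_lt.1 h1) (by
        rw [Ne, map_eq_zero]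
        exact z.ne_zero)
      have h3 : φ (c : K) < 0 := lt_of_le_of_ne (not_lt.1 fun h4 => h1 ((hc2 φ).1 h4)) (by
        rw [Ne, map_eq_zero]
        exact c.ne_zero)
      exact mul_pos_of_neg_of_neg h2 h3
  · intro w hw
    have h1 := near_mul _ (val_nat_lt_one hw) (hz w hw) (hc1 w hw)
    have h2 : ((z * c : Kˣ) : K) / (y w : K) = (z : K) / (y w : K) * (c : K) := by
      rw [Units.val_mul]
      ring
    rw [h2]
    exact h1

/-- an element near `x` at `v`, near `1` at the other primes dividing `N`, totally positive -/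
theorem apxAt {N : ℕ} (hN : N ≠ 0) (v : HeightOneSpectrum (𝓞 K)) (x : Kˣ) :
    ∃ z : Kˣ, Pos (z : K) ∧ CongAt {v}ᶜ N (z : K) ∧ ((N : 𝓞 K) ∈ v.asIdeal →
      v.valuation K ((x : K) / (z : K) - 1) ≤ v.valuation K (N : K)) := by
  classical
  obtain ⟨z, hz1, hz2⟩ := apx hN (fun w : HeightOneSpectrum (𝓞 K) => if w = v then x else 1)
  refine ⟨z, hz1, ?_, ?_⟩
  · intro w hw hNw
    have h1 := hz2 w hNw
    have hne : w ≠ v := fun h => hw (by rw [h]; exact Set.mem_singleton v)
    rw [if_neg hne, Units.val_one, div_one] at h1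
    exact h1
  · intro hv
    have h1 := hz2 v hv
    rw [if_pos rfl] at h1
    have h2 := near_inv _ (val_nat_lt_one hv) h1
    rwa [inv_div] at h2

theorem prin_eq_of_near {N : ℕ} {v : HeightOneSpectrum (𝓞 K)} (hv : (N : 𝓞 K) ∈ v.asIdeal)
    {x z : Kˣ} (h : v.valuation K ((x : K) / (z : K) - 1) ≤ v.valuation K (N : K)) :
    prin x v = prin z v := by
  have h1 := near_one _ (val_nat_lt_one hv) h
  rw [← Units.val_div_eq_div_val] at h1
  have h2 := prin_eq_zero_of_valuation h1
  rw [prin_div, Finsupp.sub_apply] at h2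
  exact sub_eq_zero.1 h2

end one

section two
variable {k E : Type} [Field k] [NumberField k] [Field E] [NumberField E] [Algebra k E]

open scoped Classical in
/-- the part of the divisor `D` of `E` above the prime `v` of `k` -/
noncomputable def pa (v : HeightOneSpectrum (𝓞 k)) (D : Dv E) : Dv E :=
  D.filter (fun w => w.under (𝓞 k) = v)

theorem pa_pos {v : HeightOneSpectrum (𝓞 k)} (D : Dv E) {w : HeightOneSpectrum (𝓞 E)}
    (h : w.under (𝓞 k) = v) : pa v D w = D w := by
  classical
  unfold pa
  exact Finsupp.filter_apply_pos _ _ h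

theorem pa_neg {v : HeightOneSpectrum (𝓞 k)} (D : Dv E) {w : HeightOneSpectrum (𝓞 E)}
    (h : w.under (𝓞 k) ≠ v) : pa v D w = 0 := by
  classical
  unfold pa
  exact Finsupp.filter_apply_neg _ _ h

/-- the norm of the part above `v` is the part of the norm at `v` -/
theorem nmD_pa (v : HeightOneSpectrum (𝓞 k)) (D : Dv E) :
    nmD k E (pa v D) = Finsupp.single v (nmD k E D v) := by
  classical
  induction D using Finsupp.induction_linear with
  | zero =>
    have h : pa v (0 : Dv E) = 0 := by
      unfold pa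
      exact Finsupp.filter_zero _
    rw [h, map_zero, Finsupp.coe_zero, Pi.zero_apply, Finsupp.single_zero]
  | add D D' h h' =>
    have h2 : pa v (D + D') = pa v D + pa v D' := by
      unfold pa
      exact Finsupp.filter_add
    rw [h2, map_add, map_add, h, h', Finsupp.add_apply, Finsupp.single_add]
  | single w a =>
    by_cases hw : w.under (𝓞 k) = v
    · have h : pa v (Finsupp.single w a : Dv E) = Finsupp.single w a := by
        unfold pa
        exact Finsupp.filter_single_of_pos _ hw
      rw [h, nmD_single, hw, Finsupp.single_eq_same]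
    · have h : pa v (Finsupp.single w a : Dv E) = 0 := by
        unfold pa
        exact Finsupp.filter_single_of_neg _ hw
      rw [h, map_zero, nmD_single, Finsupp.single_eq_of_ne (fun h1 => hw h1.symm),
        Finsupp.single_zero]

/-- gluing divisors with given norms -/
theorem glueD {N : ℕ} (c : Dv k)
    (h : ∀ v : HeightOneSpectrum (𝓞 k), ∃ D ∈ Pr E N, nmD k E D = Finsupp.single v (c v)) :
    ∃ D ∈ Pr E N, nmD k E D = c := by
  classical
  choose D hD1 hD2 using h
  refine ⟨∑ v ∈ c.support, D v, AddSubgroup.sum_mem _ fun v _ => hD1 v, ?_⟩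
  rw [map_sum, Finset.sum_congr rfl (fun v _ => hD2 v)]
  exact Finsupp.sum_single c

theorem nm_prin (x : Eˣ) : nmD k E (prin x) = prin (nu k E x) := (Pool.Agent.Q106.AR.nm k E).1 x

theorem pos_nu {x : Eˣ} (hx : Pos (x : E)) : Pos (nu k E x : k) := by
  have h1 : x ∈ Ray E 1 := ⟨fun v hv => by
    exfalso
    rw [Nat.cast_one] at hv
    exact v.isPrime.ne_top (Ideal.eq_top_of_isUnit_mem _ hv isUnit_one), hx⟩
  exact ((Pool.Agent.Q106.AR.nm k E).2.2.1 1 one_ne_zero _ h1).2

/-- a local norm at `v ∤ N` has the valuation of a norm from a divisor prime to `N` -/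
theorem locD {N : ℕ} {v : HeightOneSpectrum (𝓞 k)} (hv : (N : 𝓞 k) ∉ v.asIdeal) {x : kˣ}
    (h : LocN E v x) : ∃ D ∈ Pr E N, nmD k E D = Finsupp.single v (prin x v) := by
  obtain ⟨y, hy⟩ := h 1
  refine ⟨pa v (prin y), ?_, ?_⟩
  · intro w hw
    refine pa_neg _ fun h1 => hv ?_
    rw [← h1]
    exact mem_under.2 hw
  · rw [nmD_pa, nm_prin]
    have h1 : v.valuation k ((x : k) / (nu k E y : k) - 1) < 1 := by
      refine hy.trans_lt ?_
      rw [← WithZero.exp_zero]
      exact WithZero.exp_lt_exp.2 (by norm_num)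
    have h2 := near_one _ h1 le_rfl
    rw [← Units.val_div_eq_div_val] at h2
    have h3 := prin_eq_zero_of_valuation h2
    rw [prin_div, Finsupp.sub_apply] at h3
    rw [sub_eq_zero.1 h3]

end two

end Pool.Agent.Q182.MZ
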