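import Pool.Agent.Q182.MZ.LFa

/-! Project MZ, job MZ-LF, second part: the local components kill the local norms; correction of the signs
by norms; divisors of unramified norms. -/

set_option autoImplicit false
set_option linter.unusedSectionVars false

namespace Pool.Agent.Q182.MZ

open NumberField IsDedekindDomain Module
open Pool.Agent.Q92.AR (Dv prin Pr Ray RayD art nmD nu up puD Cong Pos frob IsFrobenius Unramified Ram
  SupF prin_mul prin_div prin_one prin_inv mem_Pr val_eq_one nmD_single art_single frob_spec)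
open Pool.Agent.Q20.EX (CongAt)
open Pool.Agent.Q5.MZ (LocN NonSplit PosRam)
open Pool.Agent.Q38.EX (near_one near_mul near_inv near_div near_prod exists_exp_le val_nat_lt_one
  val_nat_ne_zero approx nu_eq val_nat norm_cong exists_above)
open Pool.Agent.Q125.AR (mem_under prin_eq_zero_of_valuation prin_mem_Pr Ray_mono Ram_mono)
open Pool.Agent.Q5.BR (rdeg)

section
variable {k E : Type} [Field k] [NumberField k] [Field E] [NumberField E] [Algebra k E] [IsGalois k E]

/-- the local component of the Artin character kills the local norms -/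
theorem artLoc (ψ : (E ≃ₐ[k] E) →* ℂˣ) {N : ℕ} (hN : N ≠ 0) (hR : Ram k E N)
    (hker : ∀ x ∈ Ray k N, art ψ (prin x) = 0) {v : HeightOneSpectrum (𝓞 k)}
    (hv : (N : 𝓞 k) ∈ v.asIdeal) {x z : kˣ} (hx : LocN E v x) (hz1 : Pos (z : k))
    (hz2 : CongAt {v}ᶜ N (z : k))
    (hz3 : v.valuation k ((x : k) / (z : k) - 1) ≤ v.valuation k (N : k)) :
    art ψ (prin z - Finsupp.single v (prin z v)) = 0 := by
  classical
  obtain ⟨e, he⟩ := exists_exp_le (val_nat_ne_zero hN v)
  obtain ⟨y, hy⟩ := hx e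
  have hy1 := hy.trans he
  obtain ⟨y', hp, hy'⟩ := apx hN
    (fun w : HeightOneSpectrum (𝓞 E) => if w.under (𝓞 k) = v then y else 1)
  have hray : z / nu k E y' ∈ Ray k N := by
    refine ⟨?_, ?_⟩
    · intro v' hv'
      by_cases hvv : v' = v
      · subst hvv
        obtain ⟨w0, hw0⟩ := exists_above (M := E) v'
        have h1 := norm_cong v' hv' (y' / y) w0 hw0 (fun w hw => by
          have hNw : (N : 𝓞 E) ∈ w.asIdeal := by
            rw [← mem_under (F := k), hw]
            exact hv'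
          have h2 := hy' w hNw
          rw [if_pos hw] at h2
          rwa [Units.val_div_eq_div_val])
        have h2 := near_div _ (val_nat_lt_one hv') hy1 hz3
        have h3 := near_div _ (val_nat_lt_one hv') h2 h1
        have h4 : (x : k) / (nu k E y : k) / ((x : k) / (z : k)) / (nu k E (y' / y) : k) =
            ((z / nu k E y' : kˣ) : k) := by
          rw [map_div, Units.val_div_eq_div_val, Units.val_div_eq_div_val]
          have := (nu k E y).ne_zero
          have := (nu k E y').ne_zero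
          have := x.ne_zero
          have := z.ne_zero
          field_simp
        rwa [h4] at h3
      · obtain ⟨w0, hw0⟩ := exists_above (M := E) v'
        have h1 := norm_cong v' hv' y' w0 hw0 (fun w hw => by
          have hNw : (N : 𝓞 E) ∈ w.asIdeal := by
            rw [← mem_under (F := k), hw]
            exact hv'
          have h2 := hy' w hNw
          rw [if_neg (fun h => hvv (hw.symm.trans h)), Units.val_one, div_one] at h2
          exact h2)
        have h2 := near_div _ (val_nat_lt_one hv') (hz2 v' (by simpa using hvv) hv') h1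
        rwa [← Units.val_div_eq_div_val] at h2
    · intro φ
      rw [Units.val_div_eq_div_val, map_div₀]
      exact div_pos (hz1 φ) (pos_nu hp φ)
  have h1 := hker _ hray
  have h2 : prin z v = prin (nu k E y') v := by
    have h3 := prin_mem_Pr hray v hv
    rw [prin_div, Finsupp.sub_apply] at h3
    exact sub_eq_zero.1 h3
  rw [prin_div, map_sub] at h1
  have h4 : art ψ (nmD k E (prin y' - pa v (prin y'))) = 0 := by
    refine ((Pool.Agent.Q92.AR.all_NKer k E ψ N hN).1 hR) _ fun w hw => ?_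
    rw [Finsupp.sub_apply]
    by_cases h : w.under (𝓞 k) = v
    · rw [pa_pos _ h, sub_self]
    · rw [pa_neg _ h, sub_zero]
      have h5 := hy' w hw
      rw [if_neg h, Units.val_one, div_one] at h5
      exact prin_eq_zero_of_valuation (near_one _ (val_nat_lt_one hw) h5)
  rw [map_sub, nmD_pa, nm_prin, map_sub, ← h2, ← sub_eq_zero.1 h1] at h4
  rw [map_sub]
  exact h4

/-- the signs of an element which is positive at the ramified real places may be corrected by a norm -/
theorem fixReal {N : ℕ} (hN : N ≠ 0) {u : kˣ} (hu : PosRam E u) :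
    ∃ t : Eˣ, Cong N (t : E) ∧ Pos ((u * nu k E t : kˣ) : k) := by
  classical
  have hex : ∀ φ : {φ : k →+* ℝ // ∃ χ : E →+* ℝ, χ.comp (algebraMap k E) = φ},
    ∃ χ : E →+* ℝ, χ.comp (algebraMap k E) = φ.1 := fun φ => φ.2
  choose X hX using hex
  obtain ⟨t, ht1, ht2⟩ := Pool.Agent.Q84.AR.sgn E N hN
    (fun χ => ¬ ∃ φ : {φ : k →+* ℝ // ∃ χ : E →+* ℝ, χ.comp (algebraMap k E) = φ},
      X φ = χ ∧ φ.1 (u : k) < 0)
  refine ⟨t, ht1, fun φ => ?_⟩
  rw [Units.val_mul, map_mul]
  by_cases hφ : ∃ χ : E →+* ℝ, χ.comp (algebraMap k E) = φ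
  · have hχφ : (X ⟨φ, hφ⟩).comp (algebraMap k E) = φ := hX ⟨φ, hφ⟩
    have hinj : ∀ φ' : {φ : k →+* ℝ // ∃ χ : E →+* ℝ, χ.comp (algebraMap k E) = φ},
        X φ' = X ⟨φ, hφ⟩ → φ'.1 = φ := fun φ' h => by
      rw [← hX φ', h, hχφ]
    have hnu : φ (nu k E t : k) = (X ⟨φ, hφ⟩) (t : E) *
        ∏ g ∈ Finset.univ.erase (1 : E ≃ₐ[k] E), (X ⟨φ, hφ⟩) (g (t : E)) := by
      have h1 : φ (nu k E t : k) = (X ⟨φ, hφ⟩) (algebraMap k E (nu k E t : k)) := by
        conv_lhs => rw [← hχφ]
        rfl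
      rw [h1, nu_eq, map_prod,
        ← Finset.mul_prod_erase Finset.univ _ (Finset.mem_univ (1 : E ≃ₐ[k] E))]
      rfl
    have hprod : 0 < ∏ g ∈ Finset.univ.erase (1 : E ≃ₐ[k] E), (X ⟨φ, hφ⟩) (g (t : E)) := by
      refine Finset.prod_pos fun g hg => ?_
      have hg1 : g ≠ 1 := Finset.ne_of_mem_erase hg
      have h2 : 0 < ((X ⟨φ, hφ⟩).comp (g : E →+* E)) (t : E) := by
        refine (ht2 _).2 ?_
        rintro ⟨φ', h3, -⟩
        have h4 : φ'.1 = φ := by
          rw [← hX φ', h3]
          refine Eq.trans ?_ hχφ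
          apply RingHom.ext
          intro a
          change (X ⟨φ, hφ⟩) (g (algebraMap k E a)) = (X ⟨φ, hφ⟩) (algebraMap k E a)
          rw [g.commutes]
        have h5 : φ' = ⟨φ, hφ⟩ := Subtype.ext h4
        rw [h5] at h3
        apply hg1
        ext e
        have h6 : (X ⟨φ, hφ⟩) e = (X ⟨φ, hφ⟩) (g e) := DFunLike.congr_fun h3 e
        exact ((X ⟨φ, hφ⟩).injective h6).symm
      exact h2
    rw [hnu]
    have hune : φ (u : k) ≠ 0 := by
      rw [Ne, map_eq_zero]
      exact u.ne_zero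
    have htne : (X ⟨φ, hφ⟩) (t : E) ≠ 0 := by
      rw [Ne, map_eq_zero]
      exact t.ne_zero
    rcases lt_or_gt_of_ne hune with h | h
    · have h7 : ¬ 0 < (X ⟨φ, hφ⟩) (t : E) := fun h8 => (ht2 _).1 h8 ⟨⟨φ, hφ⟩, rfl, h⟩
      have h9 : (X ⟨φ, hφ⟩) (t : E) < 0 := lt_of_le_of_ne (not_lt.1 h7) htne
      rw [← mul_assoc]
      exact mul_pos (mul_pos_of_neg_of_neg h h9) hprod
    · have h7 : 0 < (X ⟨φ, hφ⟩) (t : E) := (ht2 _).2 (by
        rintro ⟨φ', h8, h9⟩
        rw [hinj φ' h8] at h9
        exact absurd h9 (not_lt.2 h.le))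
      exact mul_pos h (mul_pos h7 hprod)
  · exact mul_pos (hu φ hφ) ((Pool.Agent.Q106.AR.nm k E).2.2.2.2.1 φ t hφ)

/-- at an unramified prime, the multiples of `w` in the kernel of the Artin map are norms -/
theorem unrD (ψ : (E ≃ₐ[k] E) →* ℂˣ) (hψ : Function.Injective ψ) {N : ℕ}
    {w : HeightOneSpectrum (𝓞 k)} (hw : (N : 𝓞 k) ∉ w.asIdeal) (hu : Unramified E w) {n : ℤ}
    (h : art ψ (Finsupp.single w n) = 0) : ∃ D ∈ Pr E N, nmD k E D = Finsupp.single w n := by
  obtain ⟨W, hW⟩ := exists_above (M := E) w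
  rw [art_single, ← ofMul_zpow, ofMul_eq_zero, ← map_zpow] at h
  have h1 : (frob E w) ^ n = 1 := hψ (by rw [h, map_one])
  have h2 : (orderOf (frob E w) : ℤ) ∣ n := orderOf_dvd_iff_zpow_eq_one.2 h1
  have h3 : orderOf (frob E w) = rdeg k W := by
    refine Pool.Agent.Q225.AR.fr.2.2.2 k E W _ ?_ ?_
    · rw [hW]
      exact hu
    · rw [hW]
      exact frob_spec w
  rw [h3] at h2
  obtain ⟨m, rfl⟩ := h2
  refine ⟨Finsupp.single W m, ?_, ?_⟩
  · intro W' hW'
    refine Finsupp.single_eq_of_ne fun h4 => hw ?_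
    rw [← hW, ← h4]
    exact mem_under.2 hW'
  · rw [nmD_single, hW]

end

end Pool.Agent.Q182.MZ
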